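import Pool.Agent.helper15.QB.Line

set_option autoImplicit false

/-!
# Flags of invariant linear subspaces starting with a plane
-/

namespace Pool.Agent.P2F

open MvPolynomial Filter Topology Pool.Agent.helper37.QA Pool.Agent.helper15.QB

variable {k d : ℕ}

/-- `f` maps each coordinate subspace `x₀ = ... = x_i = 0` of dimension `≥ 2` to itself. -/
def Flag2 (f : Endo k d) : Prop :=
  ∀ (i : Fin (k + 1)) (x : Fin (k + 1) → ℂ), (i : ℕ) + 3 ≤ k → (∀ j ≤ i, x j = 0) → eval x (f.F i) = 0

theorem flag2 (H : ∀ f : Endo 2 d, Good f) (hd : 2 ≤ d) : ∀ (k : ℕ) (f : Endo k d), Flag2 f → Good f := by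
  intro k
  induction k with
  | zero => intro f _; exact good_zero f
  | succ k ih =>
    intro f hf
    by_cases hk : k = 0
    · subst hk
      exact good_one hd f
    by_cases hk1 : k = 1
    · subst hk1
      exact H f
    have h0 : ∀ x : Fin (k + 2) → ℂ, x 0 = 0 → eval x (f.F 0) = 0 := by
      intro x hx
      refine hf 0 x (by simp only [Fin.val_zero]; omega) fun j hj => ?_
      have : j = 0 := Fin.ext (by have := Fin.le_def.1 hj; simpa using this)
      rw [this]
      exact hx
    have hr : Flag2 (restr f h0) := by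
      intro i y hi hy
      have h1 : (fun i => eval y ((Fin.cons 0 X : Fin (k + 2) →
          MvPolynomial (Fin (k + 1)) ℂ) i)) = (Fin.cons 0 y : Fin (k + 2) → ℂ) := by
        funext i
        refine Fin.cases ?_ (fun j => ?_) i
        · simp
        · simp
      change eval y (aeval (Fin.cons 0 X : Fin (k + 2) → MvPolynomial (Fin (k + 1)) ℂ)
        (f.F i.succ)) = 0
      rw [eval_aeval', h1]
      refine hf i.succ _ (by rw [Fin.val_succ]; omega) fun j => ?_
      refine Fin.cases ?_ (fun j => ?_) j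
      · intro _
        simp
      · intro hj
        simp only [Fin.cons_succ]
        exact hy j (Fin.succ_le_succ_iff.1 hj)
    refine good_of_hypersurface hd (e := 1) one_pos (h := X 0) (isHomogeneous_X ℂ 0)
      (good_image (ih (restr f h0) hr) emb_cont (m := 1) one_pos fun z => ?_) ?_
    · rw [Function.iterate_one]
      exact emb_semi f h0 z
    · intro x hx
      rw [eval_X] at hx
      obtain ⟨p, hp⟩ := emb_surj hx
      exact ⟨p, hp⟩

/-- If an iterate of `f` preserves a flag of linear subspaces of dimensions `2, ..., k - 1`, then `f` is good. -/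
theorem flag2_iter (H : ∀ d : ℕ, 2 ≤ d → ∀ f : Endo 2 d, Good f) (hd : 2 ≤ d) (f : Endo k d) {m : ℕ} (hm : 0 < m)
    (L : (Fin (k + 1) → ℂ) ≃ₗ[ℂ] (Fin (k + 1) → ℂ))
    (hL : ∀ (i : Fin (k + 1)) (p : PP k), (i : ℕ) + 3 ≤ k → (∀ j ≤ i, L p.rep j = 0) →
      ∀ j ≤ i, L (f.map^[m] p).rep j = 0) : Good f := by
  have hdm : 2 ≤ d ^ m := by
    calc 2 ≤ d := hd
      _ = d ^ 1 := (pow_one d).symm
      _ ≤ d ^ m := Nat.pow_le_pow_right (by omega) hm
  have hfl : Flag2 (conj (itE f m) L) := by
    intro i x hik hx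
    by_cases hx0 : x = 0
    · subst hx0
      have h1 := eval_smul_hom ((conj (itE f m) L).hom i) 0 (0 : Fin (k + 1) → ℂ)
      rw [smul_zero, zero_pow (by omega), zero_mul] at h1
      exact h1
    · have h1 := lin_ne L.symm hx0
      have h2 := hL i (toPP ⟨L.symm x, h1⟩) hik (by
        intro j hj
        obtain ⟨a, ha⟩ := Projectivization.exists_smul_eq_mk_rep ℂ (L.symm x) h1
        have h3 : (toPP ⟨L.symm x, h1⟩ : PP k).rep = (a : ℂ) • L.symm x := ha.symm
        rw [h3, map_smul, L.apply_symm_apply, Pi.smul_apply, hx j hj, smul_zero]) i le_rfl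
      rw [map_iter] at h2
      obtain ⟨a, ha⟩ := Projectivization.exists_smul_eq_mk_rep ℂ
        (Pool.Agent.helper37.QA.pmap (iter f.F m) (L.symm x)) (pmap_ne (iter_nd f.nondeg m) h1)
      have h3 : (toPP ⟨Pool.Agent.helper37.QA.pmap (iter f.F m) (L.symm x),
          pmap_ne (iter_nd f.nondeg m) h1⟩ : PP k).rep =
          (a : ℂ) • Pool.Agent.helper37.QA.pmap (iter f.F m) (L.symm x) := ha.symm
      rw [h3, map_smul, Pi.smul_apply, smul_eq_mul, mul_eq_zero] at h2
      have h4 := h2.resolve_left a.ne_zero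
      have h5 := congrFun (conj_pmap (itE f m) L x) i
      exact h5.trans h4
  have hg := good_image (f := f) (flag2 (H _ hdm) hdm k _ hfl) (linMap_cont L.symm) hm (fun z => by
    have h1 := linMap_semi (itE f m) L z
    rw [itE_map] at h1
    exact h1)
  rw [(linMap_surj L.symm).range_eq] at hg
  intro ι U hU hne
  obtain ⟨x, ⟨-, hx⟩, hper⟩ := hg ι U hU (by rwa [Set.univ_inter])
  exact ⟨x, hx, hper⟩

/-- Triangular maps, with an arbitrary part in the last three variables. -/
theorem tri2 (H : ∀ f : Endo 2 d, Good f) (hd : 2 ≤ d) (f : Endo k d)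
    (hf : ∀ i : Fin (k + 1), (i : ℕ) + 3 ≤ k → ∀ j ∈ (f.F i).vars, j ≤ i) : Good f := by
  refine flag2 H hd k f ?_
  intro i x hik hx
  have h1 : eval x (f.F i) = eval (0 : Fin (k + 1) → ℂ) (f.F i) := by
    refine eval₂Hom_congr' rfl ?_ rfl
    intro j hj _
    exact hx j (hf i hik j hj)
  rw [h1]
  have h2 := eval_smul_hom (f.hom i) 0 (0 : Fin (k + 1) → ℂ)
  rw [smul_zero, zero_pow (by omega), zero_mul] at h2
  exact h2

end Pool.Agent.P2F
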