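import Pool.Agent.helper1.P2.AMA
import Pool.Agent.helper1.P2.APS
import Pool.Agent.helper1.P2.LSE
import Pool.Agent.helper11.P2.MN2
import Pool.Agent.helper15.P2.AreBridge
import Pool.Agent.helper15.P2.IB1
import Pool.Agent.helper15.P2.ISA
import Pool.Agent.helper15.P2.UN1
import Pool.Agent.helper17.P2.AVG
import Pool.Agent.helper18.P2.MN1
import Pool.Agent.helper18.P2.XTL
import Pool.Agent.helper2.P2.QRE
import Pool.Agent.helper2.P2.SEP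
import Pool.Agent.helper2.P2.UNH
import Pool.Agent.helper2.P2.XCH
import Pool.Agent.helper20.P2.ISM
import Pool.Agent.helper20.P2.NDE
import Pool.Agent.helper20.P2.NIS
import Pool.Agent.helper23.P2.BRC
import Pool.Agent.helper23.P2.BRO
import Pool.Agent.helper23.P2.COR
import Pool.Agent.helper23.P2.QAP
import Pool.Agent.helper25.P2.NSM
import Pool.Agent.helper25.P2.XAC
import Pool.Agent.helper26.P2.CUT
import Pool.Agent.helper26.P2.IG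
import Pool.Agent.helper29.P2.IX1
import Pool.Agent.helper3.P2.ENP
import Pool.Agent.helper30.P2.IS4
import Pool.Agent.helper30.P2.IX4
import Pool.Agent.helper30.P2.MIX
import Pool.Agent.helper31.P2.PMIN
import Pool.Agent.helper32.P2.PR2
import Pool.Agent.helper34.P2.ARE
import Pool.Agent.helper34.P2.HFP
import Pool.Agent.helper37.P2.MNC
import Pool.Agent.helper39.P2.FIN
import Pool.Agent.helper41.P2.BK2
import Pool.Agent.helper41.P2.SUL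
import Pool.Agent.helper42.P2.CHB
import Pool.Agent.helper42.P2.DMS
import Pool.Agent.helper42.P2.XFQ
import Pool.Agent.helper43.P2.CHN
import Pool.Agent.helper43.P2.RIE
import Pool.Agent.helper44.P2.TUE
import Pool.Agent.helper44.P2.XC1
import Pool.Agent.helper45.P2.ACL
import Pool.Agent.helper45.P2.NNG
import Pool.Agent.helper45.P2.TRS
import Pool.Agent.helper48.P2.SMM
import Pool.Agent.helper48.P2.XC2
import Pool.Agent.helper49.P2.SLF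
import Pool.Agent.helper5.P2.INTB
import Pool.Agent.helper50.P2.ATO
import Pool.Agent.helper51.P2.CH1
import Pool.Agent.helper51.P2.GT
import Pool.Agent.helper51.P2.TEN
import Pool.Agent.helper52.P2.NET
import Pool.Agent.helper53.P2.AT4
import Pool.Agent.helper53.P2.INTA
import Pool.Agent.helper53.P2.MAU
import Pool.Agent.helper53.P2.MSS
import Pool.Agent.helper53.P2.QOM
import Pool.Agent.helper53.P2.RAD
import Pool.Agent.helper56.P2.AllI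
import Pool.Agent.helper56.P2.AllW
import Pool.Agent.helper59.P2.SMX
import Pool.Agent.helper59.P2.SRH
import Pool.Agent.helper60.P2.DCO
import Pool.Agent.helper64.P2.RD2
import Pool.Agent.helper65.P2.NOD
import Pool.Agent.helper65.P2.XLP
import Pool.Agent.helper67.P2.KOE
import Pool.Agent.helper67.P2.OCC
import Pool.Agent.helper68.P2.ABX
import Pool.Agent.helper69.P2.IX2
import Pool.Agent.helper69.P2.SID
import Pool.Agent.helper71.P2.NCV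
import Pool.Agent.helper71.P2.STO
import Pool.Agent.helper72.P2.DIA
import Pool.Agent.helper72.P2.PRB
import Pool.Agent.helper72.P2.SGR
import Pool.Agent.helper72.P2.UNI
import Pool.Agent.helper72.P2.XCL
import Pool.Agent.helper72.P2.XPE
import Pool.Agent.helper75.P2.AMB
import Pool.Agent.helper75.P2.MAN
import Pool.Agent.helper76.P2.LAT
import Pool.Agent.helper76.P2.STA
import Pool.Agent.helper77.P2.EDG
import Pool.Agent.helper77.P2.INT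
import Pool.Agent.helper78.P2.ALB
import Pool.Agent.helper79.P2.ALV
import Pool.Agent.helper79.P2.LGX
import Pool.Agent.helper80.P2.ENC
import Pool.Agent.helper80.P2.ENT
import Pool.Agent.helper80.P2.PSC
import Pool.Agent.helper80.P2.RD1
import Pool.Agent.helper80.P2.RD3
import Pool.Agent.helper80.P2.S0
import Pool.Agent.helper80.P2.SCT
import Pool.Agent.helper80.P2.SFN
import Pool.Agent.helper80.P2.SOP
import Pool.Agent.helper83.P2.VMain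
import Pool.Agent.helper84.P2.AST
import Pool.Agent.helper84.P2.PGH
import Pool.Agent.helper85.P2.BK1
import Pool.Agent.helper85.P2.INTM
import Pool.Agent.helper87.P2.DIAG
import Pool.Agent.helper89.P2.XBD
import Pool.Agent.helper9.P2.MZP
import Pool.Agent.helper90.P2.WRD
import Pool.Agent.helper92.P2.FAM
import Pool.Agent.helper96.P2.PRS

set_option autoImplicit false

/-! Assembly of project P2 (generated): every row composed. -/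

namespace Pool.Agent.helper37.P2F.AC

theorem T_P2_UN1  : _root_.Pool.Agent.P2.UN1_stmt := _root_.Pool.Agent.P2.UN1 
theorem T_P2_MSS  : _root_.Pool.Agent.P2.MSS_stmt := _root_.Pool.Agent.P2.MSS 
theorem T_P2_RAD  : _root_.Pool.Agent.P2.RAD_stmt := _root_.Pool.Agent.P2.RAD 
theorem T_P2_DMS  : _root_.Pool.Agent.P2.DMS_stmt := _root_.Pool.Agent.P2.DMS T_P2_UN1 T_P2_MSS T_P2_RAD
theorem T_P2I_CH1  : _root_.Pool.Agent.P2I.CH1_stmt := _root_.Pool.Agent.P2I.CH1 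
theorem T_P2I_BRA  : _root_.Pool.Agent.P2I.BRA_stmt := _root_.Pool.Agent.P2W.I.A_BRA 
theorem T_P2I_BRC  : _root_.Pool.Agent.P2I.BRC_stmt := _root_.Pool.Agent.P2I.BRC T_P2I_BRA
theorem T_P2I_BRS  : _root_.Pool.Agent.P2I.BRS_stmt := _root_.Pool.Agent.P2W.I.A_BRS 
theorem T_P2I_IB1  : _root_.Pool.Agent.P2I.IB1_stmt := _root_.Pool.Agent.P2I.IB1 
theorem T_P2I_AVG  : _root_.Pool.Agent.P2I.AVG_stmt := _root_.Pool.Agent.P2I.AVG 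
theorem T_P2I_FAT  : _root_.Pool.Agent.P2I.FAT_stmt := _root_.Pool.Agent.P2W.I.A_FAT 
theorem T_P2I_LGA  : _root_.Pool.Agent.P2I.LGA_stmt := _root_.Pool.Agent.P2W.I.A_LGA 
theorem T_P2I_BRO  : _root_.Pool.Agent.P2I.BRO_stmt := _root_.Pool.Agent.P2I.BRO T_P2I_BRA T_P2I_BRC T_P2I_BRS
theorem T_P2I_GB  : _root_.Pool.Agent.P2I.GB_stmt := _root_.Pool.Agent.P2W.I.A_GB 
theorem T_P2I_QOM  : _root_.Pool.Agent.P2I.QOM_stmt := _root_.Pool.Agent.P2I.QOM 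
theorem T_P2I_TCH  : _root_.Pool.Agent.P2I.TCH_stmt := _root_.Pool.Agent.P2W.I.A_TCH 
theorem T_P2I_GT  : _root_.Pool.Agent.P2I.GT_stmt := _root_.Pool.Agent.P2I.GT T_P2I_QOM T_P2I_BRA T_P2I_BRC T_P2I_TCH T_P2I_GB
theorem T_P2I_IG  : _root_.Pool.Agent.P2I.IG_stmt := _root_.Pool.Agent.P2I.IG T_P2I_AVG T_P2I_FAT T_P2I_LGA T_P2I_BRO T_P2I_GB T_P2I_GT
theorem T_P2N_LGX  : _root_.Pool.Agent.P2N.LGX_stmt := _root_.Pool.Agent.P2N.LGX T_P2I_LGA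
theorem T_P2N_IX1  : _root_.Pool.Agent.P2N.IX1_stmt := _root_.Pool.Agent.P2N.IX1 T_P2N_LGX T_P2I_GB T_P2I_IG
theorem T_P2I_CUT  : _root_.Pool.Agent.P2I.CUT_stmt := _root_.Pool.Agent.P2I.CUT 
theorem T_P2N_IX2  : _root_.Pool.Agent.P2N.IX2_stmt := _root_.Pool.Agent.P2N.IX2 T_P2I_CH1 T_P2I_IB1 T_P2I_IG T_P2N_IX1 T_P2I_CUT
theorem T_P2I_ISA  : _root_.Pool.Agent.P2I.ISA_stmt := _root_.Pool.Agent.P2I.ISA T_P2I_CH1 T_P2I_IB1 T_P2I_BRA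
theorem T_P2N_IX4  : _root_.Pool.Agent.P2N.IX4_stmt := _root_.Pool.Agent.P2N.IX4 T_P2I_BRA T_P2I_BRC T_P2I_BRS T_P2N_IX2 T_P2I_ISA
theorem T_P2N_NCV  : _root_.Pool.Agent.P2N.NCV_stmt := _root_.Pool.Agent.P2N.NCV T_P2I_BRA T_P2I_BRS
theorem T_P2N_NSM  : _root_.Pool.Agent.P2N.NSM_stmt := _root_.Pool.Agent.P2N.NSM T_P2I_CH1 T_P2I_IB1 T_P2I_BRA T_P2I_BRS T_P2N_NCV
theorem T_P2N_NIS  : _root_.Pool.Agent.P2N.NIS_stmt := _root_.Pool.Agent.P2N.NIS T_P2_UN1 T_P2_MSS T_P2I_CH1 T_P2I_BRA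
theorem T_P2_NOD  : _root_.Pool.Agent.P2.NOD_stmt := _root_.Pool.Agent.P2N.NOD T_P2_UN1 T_P2_MSS T_P2_RAD T_P2_DMS T_P2I_CH1 T_P2N_IX4 T_P2N_NSM T_P2N_NIS
theorem T_P2_VBL  : _root_.Pool.Agent.P2.VBL_stmt := _root_.Pool.Agent.P2V.VBL_all 
theorem T_P2_DIAG  : _root_.Pool.Agent.P2.DIAG_stmt := _root_.Pool.Agent.P2.DIAG T_P2_VBL
theorem T_P2_CHB  : _root_.Pool.Agent.P2.CHB_stmt := _root_.Pool.Agent.P2.CHB 
theorem T_P2_LAT  : _root_.Pool.Agent.P2.LAT_stmt := _root_.Pool.Agent.P2.LAT 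
theorem T_P2_UNI  : _root_.Pool.Agent.P2.UNI_stmt := _root_.Pool.Agent.P2.UNI 
theorem T_P2_CORE  : _root_.Pool.Agent.P2.CORE_stmt := _root_.Pool.Agent.P2V.V_CORE 
theorem T_P2_CHN  : _root_.Pool.Agent.P2.CHN_stmt := _root_.Pool.Agent.P2.CHN 
theorem T_P2_UNH  : _root_.Pool.Agent.P2.UNH_stmt := _root_.Pool.Agent.P2.UNH T_P2_UN1
theorem T_P2_DCO  : _root_.Pool.Agent.P2.DCO_stmt := _root_.Pool.Agent.P2.DCO T_P2_CORE T_P2_CHN T_P2_UNH T_P2_UN1 T_P2_MSS T_P2_DMS T_P2_RAD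
theorem T_P2_ENC  : _root_.Pool.Agent.P2.ENC_stmt := _root_.Pool.Agent.P2.ENC 
theorem T_P2_RIE  : _root_.Pool.Agent.P2.RIE_stmt := _root_.Pool.Agent.P2.RIE T_P2_DCO T_P2_ENC T_P2_RAD
theorem T_P2_MAU  : _root_.Pool.Agent.P2.MAU_stmt := _root_.Pool.Agent.P2.MAU 
theorem T_P2_LSE  : _root_.Pool.Agent.P2.LSE_stmt := _root_.Pool.Agent.P2.LSE 
theorem T_P2_PSC  : _root_.Pool.Agent.P2.PSC_stmt := _root_.Pool.Agent.P2.PSC T_P2_UN1 T_P2_MAU T_P2_CHN T_P2_LSE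
theorem T_P2_ENT  : _root_.Pool.Agent.P2.ENT_stmt := _root_.Pool.Agent.P2.ENT T_P2_DMS T_P2_UN1 T_P2_RAD
theorem T_P2_INTM  : _root_.Pool.Agent.P2.INTM_stmt := _root_.Pool.Agent.P2.INTM 
theorem T_P2_INTA  : _root_.Pool.Agent.P2.INTA_stmt := _root_.Pool.Agent.P2.INTA T_P2_INTM
theorem T_P2_STO  : _root_.Pool.Agent.P2.STO_stmt := _root_.Pool.Agent.P2.STO 
theorem T_P2_INTB  : _root_.Pool.Agent.P2.INTB_stmt := _root_.Pool.Agent.P2.INTB T_P2_STO T_P2_INTM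
theorem T_P2_INT  : _root_.Pool.Agent.P2.INT_stmt := _root_.Pool.Agent.P2.INT T_P2_UN1 T_P2_MSS T_P2_INTA T_P2_INTB
theorem T_P2_PMIN  : _root_.Pool.Agent.P2.PMIN_stmt := _root_.Pool.Agent.P2.PMIN T_P2_INT T_P2_UN1 T_P2_MSS
theorem T_P2_MIX  : _root_.Pool.Agent.P2.MIX_stmt := _root_.Pool.Agent.P2.MIX T_P2_PMIN T_P2_INT T_P2_RAD
theorem T_P2_STA  : _root_.Pool.Agent.P2.STA_stmt := _root_.Pool.Agent.P2.STA T_P2_DMS T_P2_MSS T_P2_UN1 T_P2_RAD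
theorem T_P2_TRS  : _root_.Pool.Agent.P2.TRS_stmt := _root_.Pool.Agent.P2.TRS T_P2_RAD
theorem T_P2_OCC  : _root_.Pool.Agent.P2.OCC_stmt := _root_.Pool.Agent.P2.OCC T_P2_RAD
theorem T_P2_QRE  : _root_.Pool.Agent.P2.QRE_stmt := _root_.Pool.Agent.P2.QRE T_P2_MIX T_P2_STA T_P2_TRS T_P2_OCC T_P2_RAD
theorem T_P2_MAN  : _root_.Pool.Agent.P2.MAN_stmt := _root_.Pool.Agent.P2.MAN T_P2_RIE T_P2_PSC T_P2_ENT T_P2_QRE T_P2_DMS T_P2_RAD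
theorem T_P2_MN1  : _root_.Pool.Agent.P2.MN1_stmt := _root_.Pool.Agent.P2.MN1 T_P2_CHB T_P2_ENC T_P2_PSC T_P2_CHN
theorem T_P2_MN2  : _root_.Pool.Agent.P2.MN2_stmt := _root_.Pool.Agent.P2.MN2 T_P2_CHB
theorem T_P2_MNC  : _root_.Pool.Agent.P2.MNC_stmt := _root_.Pool.Agent.P2.MNC T_P2_MAN T_P2_MN1 T_P2_MN2 T_P2_PSC T_P2_ENC
theorem T_P2_TUE  : _root_.Pool.Agent.P2.TUE_stmt := _root_.Pool.Agent.P2.TUE 
theorem T_P2_TEN  : _root_.Pool.Agent.P2.TEN_stmt := _root_.Pool.Agent.P2.TEN T_P2_CHB T_P2_TUE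
theorem T_P2_SEP  : _root_.Pool.Agent.P2.SEP_stmt := _root_.Pool.Agent.P2.SEP 
theorem T_P2_ENP  : _root_.Pool.Agent.P2.ENP_stmt := _root_.Pool.Agent.P2.ENP T_P2_CHB T_P2_MNC T_P2_TEN T_P2_SEP
theorem T_P2I_IS3  : _root_.Pool.Agent.P2I.IS3_stmt := _root_.Pool.Agent.P2W.I.A_IS3 
theorem T_P2I_IS2  : _root_.Pool.Agent.P2I.IS2_stmt := _root_.Pool.Agent.P2W.I.A_IS2 
theorem T_P2I_IS4  : _root_.Pool.Agent.P2I.IS4_stmt := _root_.Pool.Agent.P2I.IS4 T_P2I_BRA T_P2I_BRC T_P2I_BRS T_P2I_IS2 T_P2I_ISA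
theorem T_P2B_BND  : _root_.Pool.Agent.P2B.BND_stmt := _root_.Pool.Agent.P2W.I.A_BND 
theorem T_P2_TUB  : _root_.Pool.Agent.P2.TUB_stmt := _root_.Pool.Agent.P2W.TUB_of T_P2I_IS3 T_P2I_IS4 T_P2B_BND
theorem T_P2A_APS  : _root_.Pool.Agent.P2A.APS_stmt := _root_.Pool.Agent.P2A.APS T_P2_UN1 T_P2_CHN T_P2_LSE T_P2_MAU
theorem T_P2A_ALB  : _root_.Pool.Agent.P2A.ALB_stmt := _root_.Pool.Agent.P2A.ALB 
theorem T_P2A_ALV  : _root_.Pool.Agent.P2A.ALV_stmt := _root_.Pool.Agent.P2A.ALV T_P2_UN1 T_P2_CHN T_P2_LSE T_P2_MSS T_P2A_APS T_P2A_ALB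
theorem T_P2A_AMA  : _root_.Pool.Agent.P2A.AMA_stmt := _root_.Pool.Agent.P2A.AMA T_P2_RIE T_P2_QRE T_P2_DMS T_P2_RAD
theorem T_P2A_AMB  : _root_.Pool.Agent.P2A.AMB_stmt := _root_.Pool.Agent.P2A.AMB T_P2_DMS T_P2_RAD T_P2A_APS T_P2A_ALV T_P2A_AMA
theorem T_P2A_ABX  : _root_.Pool.Agent.P2A.ABX_stmt := _root_.Pool.Agent.P2A.ABX T_P2_ENC T_P2A_APS
theorem T_P2A_ACL  : _root_.Pool.Agent.P2A.ACL_stmt := _root_.Pool.Agent.P2A.ACL T_P2_UN1 T_P2_STO T_P2_MAU T_P2_CHN T_P2_LSE T_P2_ENC T_P2A_APS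
theorem T_P2A_AST  : _root_.Pool.Agent.P2A.AST_stmt := _root_.Pool.Agent.P2A.AST T_P2_ENC T_P2A_APS T_P2A_ABX T_P2A_ACL
theorem T_P2A_ARE  : _root_.Pool.Agent.P2A.ARE_stmt := _root_.Pool.Agent.P2A.ARE T_P2_UN1 T_P2_MAU T_P2_CHN T_P2_ENC T_P2A_APS T_P2A_AMB T_P2A_AST
theorem T_P2_ARE  : _root_.Pool.Agent.P2.ARE_stmt := _root_.Pool.Agent.P2A.AreBridge T_P2A_ARE
theorem T_P2_ISM  : _root_.Pool.Agent.P2.ISM_stmt := _root_.Pool.Agent.P2.ISM T_P2_UN1 T_P2_MSS T_P2_CHB T_P2_UNI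
theorem T_P2_DIA  : _root_.Pool.Agent.P2.DIA_stmt := _root_.Pool.Agent.P2.DIA 
theorem T_P2_FAM  : _root_.Pool.Agent.P2.FAM_stmt := _root_.Pool.Agent.P2.FAM T_P2_UN1 T_P2_MSS T_P2_UNI T_P2_ISM T_P2_DIA
theorem T_P2_BK1  : _root_.Pool.Agent.P2.BK1_stmt := _root_.Pool.Agent.P2.BK1 T_P2_ISM T_P2_FAM
theorem T_P2_NNG  : _root_.Pool.Agent.P2.NNG_stmt := _root_.Pool.Agent.P2.NNG 
theorem T_P2_BK2  : _root_.Pool.Agent.P2.BK2_stmt := _root_.Pool.Agent.P2.BK2 T_P2_ISM T_P2_DIA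
theorem T_P2_PR2  : _root_.Pool.Agent.P2.PR2_stmt := _root_.Pool.Agent.P2.PR2 T_P2_NNG T_P2_FAM T_P2_BK2
theorem T_P2_PRB  : _root_.Pool.Agent.P2.PRB_stmt := _root_.Pool.Agent.P2.PRB T_P2_CHB T_P2_LAT T_P2_UNI T_P2_ENP T_P2_TUB T_P2_ARE T_P2_BK1 T_P2_PR2
theorem T_P2_KOE  : _root_.Pool.Agent.P2.KOE_stmt := _root_.Pool.Agent.P2.KOE 
theorem T_P2_SMM  : _root_.Pool.Agent.P2.SMM_stmt := _root_.Pool.Agent.P2.SMM 
theorem T_P2_PGH  : _root_.Pool.Agent.P2.PGH_stmt := _root_.Pool.Agent.P2.PGH 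
theorem T_P2_MZP  : _root_.Pool.Agent.P2.MZP_stmt := _root_.Pool.Agent.P2.MZP T_P2_UN1 T_P2_MSS
theorem T_P2_AT4  : _root_.Pool.Agent.P2.AT4_stmt := _root_.Pool.Agent.P2.AT4 T_P2_UNI T_P2_ISM T_P2_FAM T_P2_BK1 T_P2_KOE T_P2_SMM T_P2_PGH T_P2_MZP
theorem T_P2_FIN  : _root_.Pool.Agent.P2.FIN_stmt := _root_.Pool.Agent.P2.FIN T_P2_CHB
theorem T_P2_ATO  : _root_.Pool.Agent.P2.ATO_stmt := _root_.Pool.Agent.P2.ATO T_P2_AT4 T_P2_FIN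
theorem T_P2_HFP  : _root_.Pool.Agent.P2.HFP_stmt := _root_.Pool.Agent.P2.HFP 
theorem T_P2_EDG  : _root_.Pool.Agent.P2.EDG_stmt := _root_.Pool.Agent.P2.EDG T_P2_LAT T_P2_UNI T_P2_HFP
theorem T_P2_NET  : _root_.Pool.Agent.P2.NET_stmt := _root_.Pool.Agent.P2.NET 
theorem T_P2_NDE  : _root_.Pool.Agent.P2.NDE_stmt := _root_.Pool.Agent.P2.NDE T_P2_CHB T_P2_LAT T_P2_UNI T_P2_EDG T_P2_NET
theorem T_P2_WRD  : _root_.Pool.Agent.P2.WRD_stmt := _root_.Pool.Agent.P2.WRD 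
theorem T_P2_XLP  : _root_.Pool.Agent.P2.XLP_stmt := _root_.Pool.Agent.P2.XLP 
theorem T_P2_XCH  : _root_.Pool.Agent.P2.XCH_stmt := _root_.Pool.Agent.P2.XCH 
theorem T_P2_XPE  : _root_.Pool.Agent.P2.XPE_stmt := _root_.Pool.Agent.P2.XPE 
theorem T_P2_XC1  : _root_.Pool.Agent.P2.XC1_stmt := _root_.Pool.Agent.P2.XC1 T_P2_XLP T_P2_XCH T_P2_XPE
theorem T_P2_XFQ  : _root_.Pool.Agent.P2.XFQ_stmt := _root_.Pool.Agent.P2.XFQ 
theorem T_P2_XTL  : _root_.Pool.Agent.P2.XTL_stmt := _root_.Pool.Agent.P2.XTL T_P2_XFQ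
theorem T_P2_XAC  : _root_.Pool.Agent.P2.XAC_stmt := _root_.Pool.Agent.P2.XAC 
theorem T_P2_XBD  : _root_.Pool.Agent.P2.XBD_stmt := _root_.Pool.Agent.P2.XBD 
theorem T_P2_XC2  : _root_.Pool.Agent.P2.XC2_stmt := _root_.Pool.Agent.P2.XC2 T_P2_XFQ T_P2_XTL T_P2_XAC T_P2_XBD
theorem T_P2_XCL  : _root_.Pool.Agent.P2.XCL_stmt := _root_.Pool.Agent.P2.XCL T_P2_XC1 T_P2_XC2
theorem T_P2_PRS  : _root_.Pool.Agent.P2.PRS_stmt := _root_.Pool.Agent.P2.PRS T_P2_LAT T_P2_UNI T_P2_MZP T_P2_NDE T_P2_WRD T_P2_XCL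
theorem T_P2_COR  : _root_.Pool.Agent.P2.COR_stmt := _root_.Pool.Agent.P2.COR T_P2_NOD T_P2_DIAG T_P2_PRB T_P2_ATO T_P2_PRS T_P2_FIN
theorem T_P2_SID  : _root_.Pool.Agent.P2.SID_stmt := _root_.Pool.Agent.P2.SID 
theorem T_P2_SRH  : _root_.Pool.Agent.P2.SRH_stmt := _root_.Pool.Agent.P2.SRH 
theorem T_P2_SGR  : _root_.Pool.Agent.P2.SGR_stmt := _root_.Pool.Agent.P2.SGR 
theorem T_P2_SOP  : _root_.Pool.Agent.P2.SOP_stmt := _root_.Pool.Agent.P2.SOP 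
theorem T_P2_SLF  : _root_.Pool.Agent.P2.SLF_stmt := _root_.Pool.Agent.P2.SLF T_P2_SGR
theorem T_P2_SUL  : _root_.Pool.Agent.P2.SUL_stmt := _root_.Pool.Agent.P2.SUL 
theorem T_P2_SCT  : _root_.Pool.Agent.P2.SCT_stmt := _root_.Pool.Agent.P2.SCT T_P2_SLF T_P2_SUL T_P2_SOP
theorem T_P2_SMX  : _root_.Pool.Agent.P2.SMX_stmt := _root_.Pool.Agent.P2.SMX T_P2_SGR T_P2_SLF T_P2_SUL
theorem T_P2_SFN  : _root_.Pool.Agent.P2.SFN_stmt := _root_.Pool.Agent.P2.SFN T_P2_SGR T_P2_SOP T_P2_SCT T_P2_SMX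
theorem T_P2_S0  : _root_.Pool.Agent.P2.S0_stmt := _root_.Pool.Agent.P2.S0 T_P2_SID T_P2_SRH T_P2_SFN
theorem T_P2_RD1  : _root_.Pool.Agent.P2.RD1_stmt := _root_.Pool.Agent.P2.RD1 
theorem T_P2_RD2  : _root_.Pool.Agent.P2.RD2_stmt := _root_.Pool.Agent.P2.RD2 
theorem T_P2_RD3  : _root_.Pool.Agent.P2.RD3_stmt := _root_.Pool.Agent.P2.RD3 T_P2_UN1 T_P2_UNH T_P2_MSS
theorem T_P2_QAP  : _root_.Pool.Agent.P2.QAP_stmt := _root_.Pool.Agent.P2.QAP T_P2_COR T_P2_S0 T_P2_RD1 T_P2_RD2 T_P2_RD3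

end Pool.Agent.helper37.P2F.AC
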